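import Mathlib

namespace Pool.Agent.H.MP_f895a2

open Filter Topology MeasureTheory Set

theorem exY {V : Type} [AddCommGroup V] [Module ℝ V] (p : Seminorm ℝ V)
    (h : ∀ x y, p (x + y) ^ 3 + p (x - y) ^ 3 ≤ 4 * (p x ^ 3 + p y ^ 3)) :
    ∃ (Y : Type) (_ : NormedAddCommGroup Y) (_ : NormedSpace ℝ Y) (_ : CompleteSpace Y)
      (_ : UniformConvexSpace Y) (j : V →ₗ[ℝ] Y), DenseRange j ∧ ∀ v, ‖j v‖ = p v := by
  letI : SeminormedAddCommGroup V := p.toAddGroupSeminorm.toSeminormedAddCommGroup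
  letI : NormedSpace ℝ V := ⟨fun c x => (map_smul_eq_mul p c x).le⟩
  have k : ∀ x y : UniformSpace.Completion V,
      ‖x + y‖ ^ 3 + ‖x - y‖ ^ 3 ≤ 4 * (‖x‖ ^ 3 + ‖y‖ ^ 3) := fun x y => by
    refine UniformSpace.Completion.induction_on₂ x y
      (isClosed_le (by fun_prop) (by fun_prop)) fun a b => ?_
    rw [← UniformSpace.Completion.coe_add, ← UniformSpace.Completion.coe_sub]
    simp only [UniformSpace.Completion.norm_coe]
    exact h a b
  refine ⟨UniformSpace.Completion V, inferInstance, inferInstance, inferInstance,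
    ⟨fun ε hε => ⟨ε ^ 3 / 12, by positivity, fun x hx y hy e => ?_⟩⟩,
    (UniformSpace.Completion.toComplₗᵢ (𝕜 := ℝ) (E := V)).toLinearMap,
    UniformSpace.Completion.denseRange_coe, fun v => UniformSpace.Completion.norm_coe v⟩
  have a := k x y
  have b := norm_add_le x y
  have c := pow_le_pow_left₀ hε.le e 3
  have d := norm_nonneg (x + y)
  rw [hx, hy] at a b
  nlinarith [mul_nonneg (sub_nonneg.2 b) (sub_nonneg.2 b), mul_nonneg d d,
    mul_nonneg (mul_nonneg (sub_nonneg.2 b) (sub_nonneg.2 b)) d]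

variable {H : Type} [NormedAddCommGroup H] [InnerProductSpace ℝ H]

structure Bd (W : Set H) : Prop where
  cv : Convex ℝ W
  z : (0 : H) ∈ W
  ng : ∀ w ∈ W, -w ∈ W
  bd : ∀ w ∈ W, ‖w‖ ≤ 1

noncomputable def D (W : Set H) (x : H) (r : ℝ) : ℝ := ⨅ w : W, ‖x - r • w.1‖

noncomputable def Φ (W : Set H) (x : H) : ℝ := ∫ r in Ioi (0 : ℝ), D W x r ^ 2

variable {W : Set H}

theorem D_le (x : H) (r : ℝ) {w : H} (hw : w ∈ W) : D W x r ≤ ‖x - r • w‖ :=
  ciInf_le (f := fun w : W => ‖x - r • w.1‖) ⟨0, by rintro _ ⟨w, rfl⟩; exact norm_nonneg _⟩ ⟨w, hw⟩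

theorem D_nn (x : H) (r : ℝ) : 0 ≤ D W x r := Real.iInf_nonneg fun _ => norm_nonneg _

theorem Φ_nn (x : H) : 0 ≤ Φ W x := integral_nonneg fun _ => sq_nonneg _

namespace Bd

variable (B : Bd W)
include B

theorem le_D {x : H} {r c : ℝ} (h : ∀ w ∈ W, c ≤ ‖x - r • w‖) : c ≤ D W x r :=
  haveI : Nonempty W := ⟨⟨0, B.z⟩⟩
  le_ciInf fun w => h w.1 w.2

theorem two (x y : H) (r c : ℝ) (F : ℝ → ℝ → ℝ) (hF : Continuous fun p : ℝ × ℝ => F p.1 p.2)
    (h : ∀ w ∈ W, ∀ w' ∈ W, c ≤ F ‖x - r • w‖ ‖y - r • w'‖) : c ≤ F (D W x r) (D W y r) := by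
  have : Nonempty W := ⟨⟨0, B.z⟩⟩
  have k : ∀ x : H, D W x r ∈ closure (range fun w : W => ‖x - r • w.1‖) := fun x =>
    csInf_mem_closure (range_nonempty _) ⟨0, by rintro _ ⟨w, rfl⟩; exact norm_nonneg _⟩
  refine closure_minimal (t := {p : ℝ × ℝ | c ≤ F p.1 p.2}) ?_ (isClosed_le continuous_const hF)
    (closure_prod_eq.ge (mk_mem_prod (k x) (k y)))
  rintro ⟨_, _⟩ ⟨⟨w, rfl⟩, ⟨w', rfl⟩⟩
  exact h _ w.2 _ w'.2

theorem cont (x : H) : Continuous (D W x) := by
  refine (LipschitzWith.of_le_add fun r s => ?_).continuous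
  refine sub_le_iff_le_add.1 (B.le_D fun w hw => ?_)
  have a := D_le x r hw
  have b := norm_add_le (x - s • w) ((s - r) • w)
  rw [show x - s • w + (s - r) • w = x - r • w by module, norm_smul, Real.norm_eq_abs,
    abs_sub_comm, ← Real.dist_eq] at b
  have := mul_le_of_le_one_right (dist_nonneg (x := r) (y := s)) (B.bd w hw)
  linarith

theorem dom {w : H} (hw : w ∈ W) {R : ℝ} (hR : 0 ≤ R) (r : ℝ) (hr : 0 < r) :
    D W (R • w) r ^ 2 ≤ (Ioc 0 R).indicator (fun _ => ‖R • w‖ ^ 2) r := by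
  by_cases h : r ≤ R
  · rw [indicator_of_mem (show r ∈ Ioc 0 R from ⟨hr, h⟩)]
    exact pow_le_pow_left₀ (D_nn _ _) (by simpa using D_le (R • w) r B.z) 2
  · have := D_le (R • w) r (B.cv.smul_mem_of_zero_mem B.z hw (t := R / r)
      ⟨by positivity, (div_le_one hr).2 (not_le.1 h).le⟩)
    rw [smul_smul, mul_div_cancel₀ _ hr.ne', sub_self, norm_zero] at this
    rw [le_antisymm this (D_nn _ _), indicator_of_notMem fun k => h k.2]
    simp

theorem int {x : H} (h : ∃ w ∈ W, ∃ R : ℝ, 0 ≤ R ∧ x = R • w) :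
    IntegrableOn (fun r => D W x r ^ 2) (Ioi 0) := by
  obtain ⟨w, hw, R, hR, rfl⟩ := h
  refine Integrable.mono' (g := (Ioc 0 R).indicator fun _ => ‖R • w‖ ^ 2)
    (((integrable_indicator_iff measurableSet_Ioc).2 (integrableOn_const (by simp))).restrict)
    ((B.cont _).pow 2).aestronglyMeasurable
    ((ae_restrict_iff' measurableSet_Ioi).2 (.of_forall fun r hr => ?_))
  rw [Real.norm_of_nonneg (sq_nonneg _)]
  exact B.dom hw hR r hr

theorem up {w : H} (hw : w ∈ W) {R : ℝ} (hR : 0 ≤ R) : Φ W (R • w) ≤ R * ‖R • w‖ ^ 2 := by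
  have i := (integrable_indicator_iff (μ := volume) measurableSet_Ioc).2
    (integrableOn_const (s := Ioc 0 R) (C := ‖R • w‖ ^ 2) (by simp))
  refine (setIntegral_mono_on (B.int ⟨w, hw, R, hR, rfl⟩) i.integrableOn measurableSet_Ioi
    (B.dom hw hR)).trans ((setIntegral_le_integral i (.of_forall fun r =>
      indicator_nonneg (fun _ _ => sq_nonneg _) r)).trans (le_of_eq ?_))
  rw [integral_indicator_const _ measurableSet_Ioc]
  simp [hR]

theorem low {x g : H} (h : ∃ w ∈ W, ∃ R : ℝ, 0 ≤ R ∧ x = R • w)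
    (hg : ∀ w ∈ W, |inner ℝ g w| ≤ 1) : |inner ℝ g x| ^ 3 ≤ 8 * ‖g‖ ^ 2 * Φ W x := by
  set s := |inner ℝ g x|
  have s0 : 0 ≤ s := abs_nonneg _
  have k : ∀ r ∈ Ioc 0 (s / 2), (s / 2) ^ 2 ≤ ‖g‖ ^ 2 * D W x r ^ 2 := fun r hr => by
    rw [← mul_pow]
    refine pow_le_pow_left₀ (by positivity) (B.two x x r _ (fun a _ => ‖g‖ * a) (by fun_prop)
      fun w hw _ _ => ?_) 2
    have a := abs_real_inner_le_norm g (x - r • w)
    have b := abs_add_le (inner ℝ g (x - r • w)) (inner ℝ g (r • w))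
    rw [← inner_add_right, sub_add_cancel, inner_smul_right, abs_mul, abs_of_pos hr.1] at b
    have := mul_le_of_le_one_right hr.1.le (hg w hw)
    show s / 2 ≤ ‖g‖ * ‖x - r • w‖
    linarith [hr.2]
  have i := (B.int h).const_mul (‖g‖ ^ 2)
  have a := setIntegral_mono_on (integrableOn_const (by simp))
    (IntegrableOn.mono_set i Ioc_subset_Ioi_self) measurableSet_Ioc k
  have b := setIntegral_mono_set i (.of_forall fun r => by positivity)
    (show Ioc 0 (s / 2) ⊆ Ioi 0 from Ioc_subset_Ioi_self).eventuallyLE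
  have c := a.trans b
  rw [integral_const_mul] at c
  simp only [integral_const, MeasurableSet.univ, measureReal_restrict_apply, univ_inter,
    Real.volume_real_Ioc, sub_zero, smul_eq_mul, max_eq_left (show 0 ≤ s / 2 by positivity)] at c
  unfold Φ
  linarith

theorem contr (P : H →L[ℝ] H) (hP : ∀ h, ‖P h‖ ≤ ‖h‖) (hW : ∀ w ∈ W, P w ∈ W) {x : H}
    (h : ∃ w ∈ W, ∃ R : ℝ, 0 ≤ R ∧ x = R • w) : Φ W (P x) ≤ Φ W x :=
  integral_mono_of_nonneg (.of_forall fun _ => sq_nonneg _) (B.int h) (.of_forall fun r =>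
    pow_le_pow_left₀ (D_nn _ _) (B.le_D fun w hw => (D_le _ r (hW w hw)).trans (by
      rw [← map_smul, ← map_sub]
      exact hP _)) 2)

theorem neg (x : H) : Φ W (-x) = Φ W x := by
  have : ∀ x r, D W (-x) r ≤ D W x r := fun x r => B.le_D fun w hw => by
    refine (D_le _ r (B.ng w hw)).trans (le_of_eq ?_)
    rw [← norm_neg]
    congr 1
    module
  unfold Φ
  congr 1 with r
  rw [le_antisymm (this x r) (by simpa using this (-x) r)]

omit B in
theorem pos (x : H) {t : ℝ} (ht : 0 < t) : Φ W (t • x) = t ^ 3 * Φ W x := by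
  have : ∀ r, D W (t • x) (t * r) = t * D W x r := fun r => by
    unfold D
    rw [Real.mul_iInf_of_nonneg ht.le]
    congr 1 with w
    rw [mul_smul, ← smul_sub, norm_smul, Real.norm_of_nonneg ht.le]
  have a := integral_comp_mul_left_Ioi' (fun r => D W (t • x) r ^ 2) 0 ht
  simp only [this, mul_pow, integral_const_mul, mul_zero, smul_eq_mul] at a
  unfold Φ
  rw [← a]
  ring

theorem smul (x : H) (t : ℝ) : Φ W (t • x) = |t| ^ 3 * Φ W x := by
  rcases lt_trichotomy t 0 with h | rfl | h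
  · rw [← B.neg, ← neg_smul, pos x (neg_pos.2 h), abs_of_neg h]
  · have := B.up B.z le_rfl
    simp only [smul_zero, zero_mul] at this
    simp [le_antisymm this (Φ_nn _)]
  · rw [pos x h, abs_of_pos h]

variable {U : Submodule ℝ H} (hU : ∀ x ∈ U, ∃ w ∈ W, ∃ R : ℝ, 0 ≤ R ∧ x = R • w)
include hU

theorem conv {x y : H} (hx : x ∈ U) (hy : y ∈ U) {a b : ℝ} (ha : 0 ≤ a) (hb : 0 ≤ b)
    (hab : a + b = 1) : Φ W (a • x + b • y) ≤ a * Φ W x + b * Φ W y := by
  have i1 := (B.int (hU x hx)).const_mul a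
  have i2 := (B.int (hU y hy)).const_mul b
  unfold Φ
  rw [← integral_const_mul, ← integral_const_mul, ← integral_add i1 i2]
  refine integral_mono (B.int (hU _ (U.add_mem (U.smul_mem a hx) (U.smul_mem b hy)))) (i1.add i2)
    fun r => B.two x y r _ (fun p q => a * p ^ 2 + b * q ^ 2) (by fun_prop) fun w hw w' hw' => ?_
  have h1 := D_le (a • x + b • y) r (B.cv hw hw' ha hb hab)
  have h2 := norm_add_le (a • (x - r • w)) (b • (y - r • w'))
  rw [show a • (x - r • w) + b • (y - r • w') = a • x + b • y - r • (a • w + b • w') by module,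
    norm_smul, norm_smul, Real.norm_of_nonneg ha, Real.norm_of_nonneg hb] at h2
  refine (pow_le_pow_left₀ (D_nn _ _) (h1.trans h2) 2).trans ?_
  obtain rfl : b = 1 - a := by linarith
  nlinarith [mul_nonneg (mul_nonneg ha hb) (sq_nonneg (‖x - r • w‖ - ‖y - r • w'‖))]

theorem clark {x y : H} (hx : x ∈ U) (hy : y ∈ U) :
    Φ W (x + y) + Φ W (x - y) ≤ 4 * (Φ W x + Φ W y) := by
  have i1 := B.int (hU x hx)
  have i2 := B.int (hU y hy)
  have i3 := B.int (hU _ (U.smul_mem (1 / 2 : ℝ) (U.add_mem hx hy)))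
  have i4 := B.int (hU _ (U.smul_mem (1 / 2 : ℝ) (U.sub_mem hx hy)))
  have a := pos (W := W) (x + y) one_half_pos
  have b := pos (W := W) (x - y) one_half_pos
  suffices Φ W ((1 / 2 : ℝ) • (x + y)) + Φ W ((1 / 2 : ℝ) • (x - y)) ≤ 1 / 2 * (Φ W x + Φ W y) by
    linarith
  unfold Φ
  rw [← integral_add i1 i2, ← integral_const_mul, ← integral_add i3 i4]
  refine integral_mono (i3.add i4) ((i1.add i2).const_mul _) fun r => B.two x y r _
    (fun p q => 1 / 2 * (p ^ 2 + q ^ 2)) (by fun_prop) fun w hw w' hw' => ?_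
  have h1 := D_le ((1 / 2 : ℝ) • (x + y)) r
    (B.cv hw hw' one_half_pos.le one_half_pos.le (add_halves 1))
  have h2 := D_le ((1 / 2 : ℝ) • (x - y)) r
    (B.cv hw (B.ng _ hw') one_half_pos.le one_half_pos.le (add_halves 1))
  rw [show (1 / 2 : ℝ) • (x + y) - r • ((1 / 2 : ℝ) • w + (1 / 2 : ℝ) • w') =
    (1 / 2 : ℝ) • ((x - r • w) + (y - r • w')) by module, norm_smul] at h1
  rw [show (1 / 2 : ℝ) • (x - y) - r • ((1 / 2 : ℝ) • w + (1 / 2 : ℝ) • -w') =
    (1 / 2 : ℝ) • ((x - r • w) - (y - r • w')) by module, norm_smul] at h2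
  have h3 := parallelogram_law_with_norm ℝ (x - r • w) (y - r • w')
  have h4 := pow_le_pow_left₀ (D_nn _ _) h1 2
  have h5 := pow_le_pow_left₀ (D_nn _ _) h2 2
  rw [Real.norm_of_nonneg one_half_pos.le] at h4 h5
  show _ ≤ 1 / 2 * (‖x - r • w‖ ^ 2 + ‖y - r • w'‖ ^ 2)
  nlinarith

theorem exSp : ∃ (Y : Type) (_ : NormedAddCommGroup Y) (_ : NormedSpace ℝ Y) (_ : CompleteSpace Y)
    (_ : UniformConvexSpace Y) (j : U →ₗ[ℝ] Y), DenseRange j ∧ ∀ v, ‖j v‖ ^ 3 = Φ W v := by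
  let N : U → ℝ := fun v => Φ W v ^ (((3 : ℕ) : ℝ)⁻¹)
  have n0 : ∀ v, 0 ≤ N v := fun v => Real.rpow_nonneg (Φ_nn _) _
  have n3 : ∀ v, N v ^ 3 = Φ W v := fun v => Real.rpow_inv_natCast_pow (Φ_nn _) (by norm_num)
  have ns : ∀ (t : ℝ) v, N (t • v) = ‖t‖ * N v := fun t v =>
    (pow_left_inj₀ (n0 _) (mul_nonneg (norm_nonneg _) (n0 _)) three_ne_zero).1 (by
      rw [n3, mul_pow, n3, Submodule.coe_smul, B.smul, Real.norm_eq_abs])
  have na : ∀ v w, N (v + w) ≤ N v + N w := fun v w => le_of_forall_pos_le_add fun ε hε => by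
    have k : ∀ v, Φ W ((N v + ε / 2)⁻¹ • v : U) ≤ 1 := fun v => by
      have := n0 v
      rw [← n3, ns, Real.norm_of_nonneg (by positivity)]
      exact pow_le_one₀ (by positivity) ((inv_mul_le_one₀ (by positivity)).2 (by linarith))
    have h1 := n0 v
    have h2 := n0 w
    set a := N v + ε / 2
    set b := N w + ε / 2
    have a0 : 0 < a := by positivity
    have b0 : 0 < b := by positivity
    have c := B.conv hU (a⁻¹ • v : U).2 (b⁻¹ • w : U).2 (a := a / (a + b)) (b := b / (a + b))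
      (by positivity) (by positivity) (by field_simp)
    have e : (a / (a + b)) • ((a⁻¹ • v : U) : H) + (b / (a + b)) • ((b⁻¹ • w : U) : H) =
        ((a + b)⁻¹ • (v + w) : U) := by
      simp only [Submodule.coe_smul, Submodule.coe_add, smul_smul, smul_add]
      congr 2 <;> field_simp
    have d : N ((a + b)⁻¹ • (v + w)) ^ 3 ≤ 1 := by
      rw [n3, ← e]
      refine c.trans ((add_le_add (mul_le_of_le_one_right (by positivity) (k v))
        (mul_le_of_le_one_right (by positivity) (k w))).trans (le_of_eq (by field_simp)))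
    rw [pow_le_one_iff_of_nonneg (n0 _) three_ne_zero, ns, Real.norm_of_nonneg (by positivity),
      inv_mul_le_one₀ (by positivity)] at d
    simp only [a, b] at d
    linarith
  obtain ⟨Y, _, _, _, _, j, h1, h2⟩ := exY (Seminorm.of N na ns) fun x y => by
    show N _ ^ 3 + N _ ^ 3 ≤ 4 * (N _ ^ 3 + N _ ^ 3)
    simp only [n3]
    exact B.clark hU x.2 y.2
  exact ⟨Y, _, _, ‹_›, ‹_›, j, h1, fun v => by rw [h2]; exact n3 v⟩

end Bd

end Pool.Agent.H.MP_f895a2
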