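import Pool.Agent.H.MP_f895a2.A

namespace Pool.Agent.H.MP_f895a2

open Filter Topology Finset

def cd (L : List (Finset ℕ)) : ℕ := Nat.pair L.length (Encodable.encode L)

def code (A : ℕ → Finset ℕ) (k : ℕ) : ℕ := cd ((List.range k).map A)

def Sp (A : ℕ → Finset ℕ) : Prop :=
  (∀ k, (A k).card = 4 ^ (code A k ^ 2)) ∧ ∀ k l, k < l → ∀ a ∈ A k, ∀ b ∈ A l, a < b

noncomputable def c (A : ℕ → Finset ℕ) (k : ℕ) : ℝ := (1 / 2) ^ (code A k ^ 2)

theorem le_code (A : ℕ → Finset ℕ) (k : ℕ) : k ≤ code A k := by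
  simpa [code, cd] using Nat.left_le_pair k _

theorem code_inj {A B : ℕ → Finset ℕ} {k l : ℕ} (h : code A k = code B l) :
    k = l ∧ ∀ i < k, A i = B i := by
  simp only [code, cd, List.length_map, List.length_range, Nat.pair_eq_pair,
    Encodable.encode_inj] at h
  obtain ⟨rfl, h⟩ := h
  exact ⟨rfl, fun i hi => List.map_inj_left.1 h i (List.mem_range.2 hi)⟩

theorem c_pos (A : ℕ → Finset ℕ) (k : ℕ) : 0 < c A k := by
  unfold c
  positivity

theorem c_le (A : ℕ → Finset ℕ) (k : ℕ) : c A k ≤ 1 := pow_le_one₀ (by norm_num) (by norm_num)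

theorem Sp.cc {A : ℕ → Finset ℕ} (h : Sp A) (k : ℕ) : c A k * c A k * (A k).card = 1 := by
  rw [h.1, c]
  push_cast
  rw [← mul_pow, ← mul_pow]
  norm_num

theorem Sp.uniq {A : ℕ → Finset ℕ} (h : Sp A) {k l p : ℕ} (a : p ∈ A k) (b : p ∈ A l) : k = l := by
  rcases lt_trichotomy k l with e | e | e
  · exact absurd (h.2 k l e p a p b) (lt_irrefl _)
  · exact e
  · exact absurd (h.2 l k e p b p a) (lt_irrefl _)

theorem exSp (M : ℕ → Set ℕ) (hM : ∀ b, (M b).Infinite) : ∃ B, Sp B ∧ ∀ b, ↑(B b) ⊆ M b := by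
  have : ∀ L : List (Finset ℕ), ∃ S : Finset ℕ, ↑S ⊆ M L.length ∧ S.card = 4 ^ (cd L ^ 2) ∧
      ∀ A ∈ L, ∀ a ∈ A, ∀ b ∈ S, a < b := fun L => by
    obtain ⟨S, h1, h2⟩ := ((hM L.length).sdiff
      (Set.finite_le_nat (L.toFinset.sup fun A => A.sup id))).exists_subset_card_eq (4 ^ (cd L ^ 2))
    exact ⟨S, fun b hb => (h1 hb).1, h2, fun A hA a ha b hb => lt_of_le_of_lt
      ((le_sup (f := id) ha).trans (le_sup (f := fun A : Finset ℕ => A.sup id)
        (List.mem_toFinset.2 hA))) (not_le.1 (h1 hb).2)⟩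
  choose g h1 h2 h3 using this
  let L : ℕ → List (Finset ℕ) := fun k =>
    Nat.rec (motive := fun _ => List (Finset ℕ)) [] (fun _ l => l ++ [g l]) k
  have e : ∀ k, (List.range k).map (fun b => g (L b)) = L k := fun k => by
    induction k with
    | zero => rfl
    | succ k ih => rw [List.range_succ, List.map_append, ih]; rfl
  refine ⟨fun b => g (L b), ⟨fun k => by rw [h2, code, e], fun k l h a ha b hb => h3 (L l) _ ?_ a ha b hb⟩,
    fun b => ?_⟩
  · rw [← e]
    exact List.mem_map.2 ⟨k, List.mem_range.2 h, rfl⟩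
  · have := h1 (L b)
    rwa [show (L b).length = b by rw [← e]; simp] at this

theorem alt (k : ℕ) : ∀ τ : ℕ → ℝ, Antitone τ → (∀ a, 0 ≤ τ a) →
    0 ≤ ∑ a ∈ range k, (-1) ^ a * τ a ∧ ∑ a ∈ range k, (-1) ^ a * τ a ≤ τ 0 := by
  induction k with
  | zero => exact fun τ _ h => by simpa using h 0
  | succ k ih =>
    intro τ h1 h2
    have := ih (fun a => τ (a + 1)) (fun a b h => h1 (Nat.succ_le_succ h)) fun a => h2 _
    have e : ∑ a ∈ range k, (-1) ^ (a + 1) * τ (a + 1) = -∑ a ∈ range k, (-1) ^ a * τ (a + 1) := by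
      rw [← sum_neg_distrib]
      exact sum_congr rfl fun a _ => by ring
    rw [sum_range_succ', e]
    have := h1 (Nat.zero_le (0 + 1))
    constructor <;> simp only [pow_zero, one_mul] <;> linarith

theorem lac {s t : ℕ} (h : s < t) :
    (1 / 2 : ℝ) ^ (s ^ 2) * (1 / 2) ^ (t ^ 2) * 4 ^ (s ^ 2) ≤ (1 / 2) ^ s * (1 / 2) ^ t := by
  obtain ⟨u, hu⟩ := Nat.exists_eq_add_of_le (show s ^ 2 + (s + t) ≤ t ^ 2 by nlinarith)
  have e : (1 / 2 : ℝ) ^ (s ^ 2) * (1 / 2) ^ (s ^ 2) * 4 ^ (s ^ 2) = 1 := by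
    rw [← mul_pow, ← mul_pow]
    norm_num
  have : (1 / 2 : ℝ) ^ u ≤ 1 := pow_le_one₀ (by norm_num) (by norm_num)
  calc _ = ((1 / 2 : ℝ) ^ (s ^ 2) * (1 / 2) ^ (s ^ 2) * 4 ^ (s ^ 2)) *
        ((1 / 2) ^ s * (1 / 2) ^ t) * (1 / 2) ^ u := by rw [hu, pow_add, pow_add, pow_add]; ring
    _ ≤ _ := by
      rw [e, one_mul]
      exact mul_le_of_le_one_right (by positivity) this

theorem geo (k : ℕ) : ∑ a ∈ range k, (1 / 2 : ℝ) ^ a ≤ 2 := sum_geometric_two_le k

theorem est {A B : ℕ → Finset ℕ} (hA : Sp A) (hB : Sp B) (k N : ℕ) (n : ℕ∞) :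
    |∑ a ∈ range k, ∑ b ∈ range N, c A a * ((-1) ^ b * c B b) *
      (((A a).filter fun p : ℕ => (p : ℕ∞) < n) ∩ B b).card| ≤ 5 := by
  let T : ℕ → ℕ → ℝ := fun a b => c A a * c B b *
    (((A a).filter fun p : ℕ => (p : ℕ∞) < n) ∩ B b).card
  have T0 : ∀ a b, 0 ≤ T a b := fun a b =>
    mul_nonneg (mul_pos (c_pos _ _) (c_pos _ _)).le (Nat.cast_nonneg _)
  have T1 : ∀ a b, T a b ≤ c A a * c B b * (A a).card := fun a b =>
    mul_le_mul_of_nonneg_left (Nat.cast_le.2 (card_le_card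
      (inter_subset_left.trans (filter_subset _ _)))) (mul_pos (c_pos _ _) (c_pos _ _)).le
  have T2 : ∀ a b, T a b ≤ c A a * c B b * (B b).card := fun a b =>
    mul_le_mul_of_nonneg_left (Nat.cast_le.2 (card_le_card inter_subset_right))
      (mul_pos (c_pos _ _) (c_pos _ _)).le
  have T3 : ∀ a b, code A a ≠ code B b → T a b ≤ (1 / 2) ^ a * (1 / 2) ^ b := fun a b h => by
    refine le_trans ?_ (mul_le_mul (pow_le_pow_of_le_one (by norm_num) (by norm_num) (le_code A a))
      (pow_le_pow_of_le_one (by norm_num) (by norm_num) (le_code B b)) (by positivity)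
      (by positivity))
    rcases h.lt_or_gt with h | h
    · refine (T1 a b).trans ?_
      rw [hA.1]
      push_cast
      exact lac h
    · refine (T2 a b).trans ?_
      rw [hB.1, mul_comm (c A a), mul_comm ((1 / 2 : ℝ) ^ code A a)]
      push_cast
      exact lac h
  let τ : ℕ → ℝ := fun a => if a < N ∧ code A a = code B a then T a a else 0
  have τ0 : ∀ a, 0 ≤ τ a := fun a => by
    simp only [τ]
    split_ifs
    exacts [T0 _ _, le_rfl]
  have τ1 : ∀ a, τ a ≤ 1 := fun a => by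
    simp only [τ]
    split_ifs with h
    · refine (T2 a a).trans (le_of_eq ?_)
      rw [show c A a = c B a by simp only [c, h.2], hB.cc]
    · exact zero_le_one
  have τ2 : Antitone τ := antitone_nat_of_succ_le fun a => by
    by_cases h : τ (a + 1) = 0
    · exact h.trans_le (τ0 a)
    refine (τ1 _).trans (le_of_eq ?_)
    simp only [τ, ite_eq_right_iff, Classical.not_imp, T, mul_eq_zero, Nat.cast_eq_zero, not_or,
      card_eq_zero, ← ne_eq, ← nonempty_iff_ne_empty] at h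
    obtain ⟨⟨h1, h2⟩, -, q, hq⟩ := h
    have h3 := (code_inj h2).2
    have h4 : code A a = code B a := congrArg cd
      (List.map_inj_left.2 fun i hi => h3 i ((List.mem_range.1 hi).trans (Nat.lt_succ_self a)))
    simp only [τ, T]
    rw [if_pos ⟨by omega, h4⟩, h3 a (Nat.lt_succ_self a), filter_true_of_mem fun p hp => ?_,
      inter_self, show c A a = c B a by simp only [c, h4], hB.cc]
    simp only [mem_inter, mem_filter] at hq
    exact lt_trans (Nat.cast_lt.2 (hB.2 a _ (Nat.lt_succ_self a) p hp q hq.2)) hq.1.2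
  have e : ∀ a, ∑ b ∈ range N, c A a * ((-1) ^ b * c B b) *
      (((A a).filter fun p : ℕ => (p : ℕ∞) < n) ∩ B b).card = (-1) ^ a * τ a +
        ∑ b ∈ range N, if code A a = code B b then 0 else (-1) ^ b * T a b := fun a => by
    have : (-1) ^ a * τ a = ∑ b ∈ range N, if code A a = code B b then (-1) ^ b * T a b else 0 := by
      by_cases h : a < N
      · rw [sum_eq_single_of_mem a (mem_range.2 h) fun b _ h => if_neg fun h' =>
          h (code_inj h').1.symm]
        simp only [τ, h, true_and, mul_ite, mul_zero]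
      · rw [sum_eq_zero fun b hb => if_neg fun h' => h (by rw [(code_inj h').1]; exact mem_range.1 hb)]
        simp only [τ, h, false_and, if_false, mul_zero]
    rw [this, ← sum_add_distrib]
    refine sum_congr rfl fun b _ => ?_
    simp only [T]
    split_ifs <;> ring
  simp only [e, sum_add_distrib]
  have a1 := alt k τ τ2 τ0
  have a2 : |∑ a ∈ range k, ∑ b ∈ range N, if code A a = code B b then 0 else (-1) ^ b * T a b| ≤
      (∑ a ∈ range k, (1 / 2 : ℝ) ^ a) * ∑ a ∈ range N, (1 / 2 : ℝ) ^ a := by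
    rw [sum_mul_sum]
    refine (abs_sum_le_sum_abs _ _).trans (sum_le_sum fun a _ =>
      (abs_sum_le_sum_abs _ _).trans (sum_le_sum fun b _ => ?_))
    split_ifs with h
    · rw [abs_zero]
      positivity
    · simpa [abs_mul, abs_of_nonneg (T0 a b)] using T3 a b h
  have a3 := mul_le_mul (geo k) (geo N) (by positivity) zero_le_two
  have := abs_le.1 a2
  have := τ1 0
  rw [abs_le]
  constructor <;> linarith

end Pool.Agent.H.MP_f895a2
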