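import Pool.Agent.H.MP_f895a2.B

namespace Pool.Agent.H.MP_f895a2

open Filter Topology Finset

variable {H : Type} [NormedAddCommGroup H] [InnerProductSpace ℝ H] (e : ℕ → H)

noncomputable def gv (A : ℕ → Finset ℕ) (k : ℕ) (n : ℕ∞) : H :=
  ∑ a ∈ range k, c A a • ∑ p ∈ (A a).filter (fun p : ℕ => (p : ℕ∞) < n), e p

def W : Set H := {h | ‖h‖ ≤ 1 ∧ ∀ A, Sp A → ∀ k n, |inner ℝ (gv e A k n) h| ≤ 1}

theorem bdW : Bd (W e) where
  cv := fun x hx y hy a b ha hb hab => ⟨by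
      simpa using convex_closedBall (0 : H) 1 (by simpa using hx.1) (by simpa using hy.1) ha hb hab,
    fun A hA k n => by
      have h1 := mul_le_of_le_one_right ha (hx.2 A hA k n)
      have h2 := mul_le_of_le_one_right hb (hy.2 A hA k n)
      rw [inner_add_right, inner_smul_right, inner_smul_right]
      refine (abs_add_le _ _).trans ?_
      rw [abs_mul, abs_mul, abs_of_nonneg ha, abs_of_nonneg hb]
      linarith⟩
  z := ⟨by simp, fun _ _ _ _ => by simp⟩
  ng := fun w hw => ⟨by simpa using hw.1, fun A hA k n => by simpa using hw.2 A hA k n⟩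
  bd := fun _ hw => hw.1

theorem memW {x : H} {R : ℝ} (hR : 0 < R) (h1 : ‖x‖ ≤ R)
    (h2 : ∀ A, Sp A → ∀ k n, |inner ℝ (gv e A k n) x| ≤ R) :
    (∃ w ∈ W e, ∃ R : ℝ, 0 ≤ R ∧ x = R • w) ∧ Φ (W e) x ≤ R * ‖x‖ ^ 2 := by
  have h : R⁻¹ • x ∈ W e := ⟨by
      rw [norm_smul, Real.norm_of_nonneg (by positivity)]
      exact (inv_mul_le_one₀ hR).2 h1, fun A hA k n => by
      rw [inner_smul_right, abs_mul, abs_of_nonneg (by positivity)]
      exact (inv_mul_le_one₀ hR).2 (h2 A hA k n)⟩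
  have := (bdW e).up h hR.le
  rw [smul_inv_smul₀ hR.ne'] at this
  exact ⟨⟨_, h, R, hR.le, (smul_inv_smul₀ hR.ne' x).symm⟩, this⟩

noncomputable def PH (N : ℕ) : H →L[ℝ] H := ∑ i ∈ range N, (innerSL ℝ (e i)).smulRight (e i)

variable {e} (he : Orthonormal ℝ e)
include he

theorem inn (S T : Finset ℕ) : inner ℝ (∑ p ∈ S, e p) (∑ q ∈ T, e q) = ((S ∩ T).card : ℝ) := by
  simp [sum_inner, inner_sum, orthonormal_iff_ite.1 he, inter_comm]

theorem inn2 (s t : Finset ℕ) (α β : ℕ → ℝ) (A B : ℕ → Finset ℕ) :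
    inner ℝ (∑ a ∈ s, α a • ∑ p ∈ A a, e p) (∑ b ∈ t, β b • ∑ q ∈ B b, e q) =
      ∑ a ∈ s, ∑ b ∈ t, α a * β b * ((A a ∩ B b).card : ℝ) := by
  simp only [sum_inner (s := s), inner_sum (s := t), inner_smul_left, inner_smul_right, inn he,
    conj_trivial, mul_assoc, mul_left_comm]

theorem ge {A : ℕ → Finset ℕ} (hA : Sp A) (k : ℕ) (n : ℕ∞) (p : ℕ) :
    |inner ℝ (gv e A k n) (e p)| ≤ 1 := by
  simp only [gv, sum_inner, inner_smul_left, conj_trivial, orthonormal_iff_ite.1 he, sum_ite_eq',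
    mem_filter]
  by_cases h : ∃ a ∈ range k, p ∈ A a
  · obtain ⟨a, h1, h2⟩ := h
    rw [sum_eq_single_of_mem a h1 fun b _ hb => by
      rw [if_neg fun h => hb (hA.uniq h.1 h2), mul_zero]]
    split_ifs
    · simpa [abs_of_pos (c_pos A a)] using c_le A a
    · simp
  · rw [sum_eq_zero fun a ha => by rw [if_neg fun k => h ⟨a, ha, k.1⟩, mul_zero]]
    simp

theorem PH_e (N p : ℕ) (h : H) :
    inner ℝ (e p) (PH e N h) = if p < N then inner ℝ (e p) h else 0 := by
  simp [PH, inner_sum, inner_smul_right, orthonormal_iff_ite.1 he]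

theorem PH_le (N : ℕ) (h : H) : ‖PH e N h‖ ≤ ‖h‖ := by
  refine (pow_le_pow_iff_left₀ (norm_nonneg _) (norm_nonneg _) two_ne_zero).1
    (le_trans (le_of_eq ?_) (he.sum_inner_products_le h (s := range N)))
  have := he.inner_sum (fun i => inner ℝ (e i) h) (fun i => inner ℝ (e i) h) (range N)
  rw [real_inner_self_eq_norm_sq] at this
  simpa [PH, sq] using this

theorem PH_W (N : ℕ) (w : H) (hw : w ∈ W e) : PH e N w ∈ W e :=
  ⟨(PH_le he N w).trans hw.1, fun A hA k n => by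
    refine le_of_eq_of_le (congrArg abs ?_) (hw.2 A hA k (min n N))
    simp only [gv, sum_inner, inner_smul_left, PH_e he, lt_min_iff, Nat.cast_lt, ← filter_filter]
    simp only [sum_filter]⟩

theorem nsq {B : ℕ → Finset ℕ} (hB : Sp B) (N : ℕ) (s : ℕ → ℝ) (hs : ∀ b, s b * s b = 1) :
    ‖∑ b ∈ range N, (s b * c B b) • ∑ q ∈ B b, e q‖ ^ 2 = N := by
  rw [← real_inner_self_eq_norm_sq, inn2 he, sum_congr rfl (g := fun _ => (1 : ℝ)) fun a ha => ?_]
  · simp
  · rw [sum_eq_single_of_mem a ha fun b _ h => by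
      rw [disjoint_iff_inter_eq_empty.1 (disjoint_left.2 fun p u v => h (hB.uniq v u))]
      simp, inter_self]
    linear_combination (c B a * c B a * (B a).card) * hs a + hB.cc a

theorem exMR : ∃ (Y : Type) (_ : NormedAddCommGroup Y) (_ : NormedSpace ℝ Y) (_ : CompleteSpace Y)
    (_ : UniformConvexSpace Y) (x : ℕ → Y) (f : ℕ → Y →L[ℝ] ℝ) (P : ℕ → Y →L[ℝ] Y),
    (∀ i j, f i (x j) = if i = j then 1 else 0) ∧ DenseRange (Finsupp.linearCombination ℝ x) ∧
    (∀ i y, |f i y| ≤ 2 * ‖y‖) ∧ (∀ N y, ‖P N y‖ ≤ 1 * ‖y‖) ∧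
    (∀ N i, P N (x i) = if i < N then x i else 0) ∧
    (∀ S : Finset ℕ, ‖∑ i ∈ S, x i‖ ^ 3 ≤ S.card ^ 2) ∧
    ∀ B, Sp B → ∀ L : ℕ, 5 ≤ L →
      ‖∑ b ∈ range (L ^ 2), ((-1) ^ b * c B b) • ∑ q ∈ B b, x q‖ ≤ L ∧
      ∀ y, |∑ a ∈ range (L ^ 2), c B a * ∑ p ∈ B a, f p y| ^ 3 ≤ 8 * L ^ 2 * ‖y‖ ^ 3 := by
  let ι := Finsupp.linearCombination ℝ e
  have hU : ∀ a, ∃ w ∈ W e, ∃ R : ℝ, 0 ≤ R ∧ ι a = R • w := fun a => by
    refine (memW e (R := ∑ i ∈ a.support, |a i| + 1) (by positivity) ?_ fun A hA k n => ?_).1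
    · refine (norm_sum_le _ _).trans ((le_of_eq ?_).trans (le_add_of_nonneg_right zero_le_one))
      simp [norm_smul, he.1]
    · simp only [ι, Finsupp.linearCombination_apply, Finsupp.sum, inner_sum, inner_smul_right]
      refine (abs_sum_le_sum_abs _ _).trans ((sum_le_sum fun i _ => ?_).trans
        (le_add_of_nonneg_right zero_le_one))
      rw [abs_mul]
      exact mul_le_of_le_one_right (abs_nonneg _) (ge he hA k n i)
  obtain ⟨Y, _, _, _, _, j, h1, h2⟩ := (bdW e).exSp (U := LinearMap.range ι)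
    (by rintro _ ⟨a, rfl⟩; exact hU a)
  let J := j ∘ₗ ι.rangeRestrict
  have hJ : DenseRange J := by
    have : Set.range J = Set.range j := (LinearMap.surjective_rangeRestrict ι).range_comp j
    unfold DenseRange
    rwa [this]
  have nJ : ∀ a, ‖J a‖ ^ 3 = Φ (W e) (ι a) := fun a => h2 _
  have low : ∀ (g : H) a, (∀ w ∈ W e, |inner ℝ g w| ≤ 1) →
      |inner ℝ g (ι a)| ^ 3 ≤ 8 * ‖g‖ ^ 2 * ‖J a‖ ^ 3 := fun g a hg => by
    rw [nJ]
    exact (bdW e).low (hU a) hg
  have co : ∀ p a, inner ℝ (e p) (ι a) = a p := fun p a => he.inner_right_finsupp a p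
  have hf : ∀ p (a : ℕ →₀ ℝ), ‖Finsupp.lapply (R := ℝ) p a‖ ≤ 2 * ‖J a‖ := fun p a => by
    have := low (e p) a fun w hw => (abs_real_inner_le_norm _ _).trans (by simpa [he.1] using hw.1)
    rw [co, he.1] at this
    exact (pow_le_pow_iff_left₀ (abs_nonneg _) (by positivity) three_ne_zero).1
      (this.trans (le_of_eq (by ring)))
  let Q : ℕ → (ℕ →₀ ℝ) →ₗ[ℝ] (ℕ →₀ ℝ) := fun N =>
    Finsupp.linearCombination ℝ fun i => if i < N then Finsupp.single i 1 else 0
  have hQ : ∀ N a, ‖(J ∘ₗ Q N) a‖ ≤ 1 * ‖J a‖ := fun N a => by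
    have : ι ∘ₗ Q N = (PH e N).toLinearMap ∘ₗ ι := Finsupp.lhom_ext' fun i => LinearMap.ext_ring (by
      by_cases h : i < N <;> simp [Q, ι, PH, h, orthonormal_iff_ite.1 he, ite_smul])
    rw [one_mul, ← pow_le_pow_iff_left₀ (norm_nonneg _) (norm_nonneg _) three_ne_zero,
      LinearMap.comp_apply, nJ, nJ, show ι (Q N a) = PH e N (ι a) from LinearMap.congr_fun this a]
    exact (bdW e).contr _ (PH_le he N) (PH_W he N) (hU a)
  have fJ : ∀ p a, (Finsupp.lapply (R := ℝ) p).extendOfNorm J (J a) = a p := fun p a =>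
    LinearMap.extendOfNorm_eq hJ ⟨2, hf p⟩ a
  have ie : ∀ i, ι (Finsupp.single i 1) = e i := fun i => by simp [ι]
  refine ⟨Y, _, _, ‹_›, ‹_›, fun i => J (Finsupp.single i 1),
    fun p => (Finsupp.lapply (R := ℝ) p).extendOfNorm J, fun N => (J ∘ₗ Q N).extendOfNorm J,
    fun i k => ?_, ?_, fun i => LinearMap.norm_extendOfNorm_apply_le hJ 2 (hf i),
    fun N => LinearMap.norm_extendOfNorm_apply_le hJ 1 (hQ N), fun N i => ?_, fun S => ?_,
    fun B hB L hL => ⟨?_, fun y => ?_⟩⟩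
  · rw [fJ, Finsupp.single_apply]
    simp only [eq_comm]
  · rwa [show Finsupp.linearCombination ℝ (fun i => J (Finsupp.single i 1)) = J from
      Finsupp.lhom_ext' fun i => LinearMap.ext_ring (by simp)]
  · rw [LinearMap.extendOfNorm_eq hJ ⟨1, hQ N⟩]
    by_cases h : i < N <;> simp [Q, h]
  · rcases S.eq_empty_or_nonempty with rfl | hS
    · simp
    have k : ‖∑ i ∈ S, e i‖ ^ 2 = S.card := by
      rw [← real_inner_self_eq_norm_sq, inn he, inter_self]
    rw [← map_sum, nJ, map_sum]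
    simp only [ie]
    refine (memW e (R := S.card) (by simpa using hS) ?_ fun A hA k n => ?_).2.trans
      (le_of_eq (by rw [k, sq]))
    · exact (norm_sum_le _ _).trans (by simp [he.1])
    · rw [inner_sum]
      exact (abs_sum_le_sum_abs _ _).trans
        ((sum_le_card_nsmul _ _ 1 fun i _ => ge he hA k n i).trans (by simp))
  · have L5 : (5 : ℝ) ≤ L := by exact_mod_cast hL
    have k := nsq he hB (L ^ 2) (fun b => (-1) ^ b) fun b => by rw [← mul_pow]; simp
    simp only [← map_sum, ← map_smul]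
    rw [← pow_le_pow_iff_left₀ (norm_nonneg _) (Nat.cast_nonneg _) three_ne_zero, nJ]
    simp only [map_sum, map_smul, ie]
    refine (memW e (R := L) (by linarith) ?_ fun A hA k n => ?_).2.trans
      (le_of_eq (by rw [k]; push_cast; ring))
    · exact (pow_le_pow_iff_left₀ (norm_nonneg _) (Nat.cast_nonneg _) two_ne_zero).1
        (k.trans (Nat.cast_pow _ _)).le
    · rw [gv, inn2 he]
      exact (est hA hB k _ n).trans L5
  · refine hJ.induction_on y (isClosed_le (by fun_prop) (by fun_prop)) fun a => ?_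
    have k := nsq he hB (L ^ 2) (fun _ => 1) fun b => one_mul 1
    have := low (gv e B (L ^ 2) ⊤) a fun w hw => hw.2 B hB _ _
    simp only [gv, ENat.coe_lt_top, filter_true, one_mul] at this k
    simp only [k, sum_inner, inner_smul_left, co, conj_trivial, Nat.cast_pow] at this
    simpa only [fJ] using this

end Pool.Agent.H.MP_f895a2
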