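import Pool.Agent.H.MP_f895a2.C

namespace Pool.Agent.H.MP_f895a2

open Filter Topology Finset

theorem notw {E : Type} [NormedAddCommGroup E] [NormedSpace ℝ E] (ψ : ℕ → E →L[ℝ] ℝ) (S : ℕ → E)
    (hS : ∀ N, ‖S N‖ ≤ 1) (h : ∀ k, ∀ᶠ N in atTop, 1 ≤ ψ k (S N)) :
    ¬ ∀ Φ : (E →L[ℝ] ℝ) →L[ℝ] ℝ, Tendsto (fun n => Φ (ψ n)) atTop (𝓝 0) := fun H => by
  have hc : Convex ℝ {g : E →L[ℝ] ℝ | ∀ᶠ N in atTop, 1 ≤ g (S N)} := fun v hv w hw a b ha hb hab => by
    filter_upwards [hv, hw] with r p q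
    have := mul_le_mul_of_nonneg_left p ha
    have := mul_le_mul_of_nonneg_left q hb
    simp only [_root_.add_apply, _root_.smul_apply, smul_eq_mul]
    linarith
  have h0 : (0 : E →L[ℝ] ℝ) ∉ closure {g : E →L[ℝ] ℝ | ∀ᶠ N in atTop, 1 ≤ g (S N)} := fun k => by
    have := closure_minimal (t := {g : E →L[ℝ] ℝ | 1 ≤ ‖g‖}) (fun g hg => by
      obtain ⟨N, hN⟩ := Eventually.exists hg
      exact hN.trans ((le_abs_self _).trans ((g.le_opNorm _).trans
        (mul_le_of_le_one_right (norm_nonneg _) (hS N)))))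
      (isClosed_le continuous_const continuous_norm) k
    simp only [Set.mem_ofPred_eq, norm_zero] at this
    linarith
  obtain ⟨φ, u, h4, h5⟩ := geometric_hahn_banach_point_closed hc.closure isClosed_closure h0
  rw [map_zero] at h4
  exact absurd (ge_of_tendsto' (H φ) fun k => (h5 _ (subset_closure (h k))).le) (not_le.2 h4)

variable {Y : Type} [NormedAddCommGroup Y] [NormedSpace ℝ Y] {x : ℕ → Y} {f : ℕ → Y →L[ℝ] ℝ}

theorem xw (h5 : ∀ S : Finset ℕ, ‖∑ i ∈ S, x i‖ ^ 3 ≤ S.card ^ 2) (φ : Y →L[ℝ] ℝ) :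
    Tendsto (fun n => φ (x n)) atTop (𝓝 0) := by
  have a : ∀ (φ : Y →L[ℝ] ℝ) (δ : ℝ), 0 < δ → ∀ᶠ k in atTop, φ (x k) < δ := fun φ δ hδ => by
    rw [← Nat.cofinite_eq_atTop, eventually_cofinite]
    by_contra hi
    obtain ⟨N, hN⟩ := exists_nat_gt (‖φ‖ ^ 3 / δ ^ 3)
    obtain ⟨S, hS, hc⟩ := Set.Infinite.exists_subset_card_eq hi N
    have b := h5 S
    have c : S.card • δ ≤ ∑ k ∈ S, φ (x k) := card_nsmul_le_sum _ _ _ fun k hk => not_lt.1 (hS hk)
    rw [← map_sum, hc, nsmul_eq_mul] at c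
    have d := c.trans ((le_abs_self _).trans (φ.le_opNorm (∑ k ∈ S, x k)))
    have N0 : (0 : ℝ) < N := lt_of_le_of_lt (by positivity) hN
    have e := pow_le_pow_left₀ (by positivity) d 3
    rw [hc] at b
    rw [div_lt_iff₀ (by positivity)] at hN
    have := mul_le_mul_of_nonneg_left b (pow_nonneg (norm_nonneg φ) 3)
    have := mul_lt_mul_of_pos_left hN (pow_pos N0 2)
    nlinarith
  refine tendsto_order.2 ⟨fun δ hδ => (a (-φ) (-δ) (neg_pos.2 hδ)).mono fun k hk => ?_, a φ⟩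
  simpa using hk

theorem fw (h1 : ∀ i j, f i (x j) = if i = j then 1 else 0)
    (h2 : DenseRange (Finsupp.linearCombination ℝ x)) (h3 : ∀ i y, |f i y| ≤ 2 * ‖y‖) (y : Y) :
    Tendsto (fun n => f n y) atTop (𝓝 0) := by
  refine Metric.tendsto_nhds.2 fun ε hε => ?_
  obtain ⟨a, h⟩ := h2.exists_dist_lt y (half_pos hε)
  filter_upwards [eventually_gt_atTop (a.support.sup id)] with n hn
  have e : f n (Finsupp.linearCombination ℝ x a) = 0 := by
    rw [Finsupp.linearCombination_apply, Finsupp.sum, map_sum]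
    refine sum_eq_zero fun i hi => ?_
    rw [map_smul, h1, if_neg, smul_zero]
    rintro rfl
    exact absurd (le_sup (f := id) hi) (not_le.2 hn)
  have := h3 n (y - Finsupp.linearCombination ℝ x a)
  rw [map_sub, e, sub_zero, ← dist_eq_norm] at this
  rw [dist_zero_right, Real.norm_eq_abs]
  linarith

theorem osc (h1 : ∀ y, Tendsto (fun n => f n y) atTop (𝓝 0))
    (h2 : ∀ φ : Y →L[ℝ] ℝ, Tendsto (fun n => φ (x n)) atTop (𝓝 0))
    (h6 : ∀ B, Sp B → ∀ L : ℕ, 5 ≤ L →
      ‖∑ b ∈ range (L ^ 2), ((-1) ^ b * c B b) • ∑ q ∈ B b, x q‖ ≤ L ∧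
      ∀ y, |∑ a ∈ range (L ^ 2), c B a * ∑ p ∈ B a, f p y| ^ 3 ≤ 8 * L ^ 2 * ‖y‖ ^ 3)
    (T : Y →L[ℝ] Y) {δ : ℝ} (hδ : 0 < δ)
    (h : ∀ j : ℕ, ∃ᶠ n in atTop, δ ≤ (-1) ^ j * f n (T (x n))) : False := by
  have step : ∀ j m : ℕ, ∃ n, δ ≤ (-1) ^ j * f n (T (x n)) ∧ m < n ∧ ∀ q ∈ range (m + 1),
      |f q (T (x n))| ≤ (1 / 4) ^ j ∧ |f n (T (x q))| ≤ (1 / 4) ^ j := fun j m =>
    ((h j).and_eventually ((eventually_gt_atTop m).and ((eventually_all_finset _).2 fun q _ =>
      ((by simpa using (h2 ((f q).comp T)).abs : Tendsto (fun n => |f q (T (x n))|) atTop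
        (𝓝 0)).eventually_le_const (by positivity)).and ((by simpa using (h1 (T (x q))).abs :
          Tendsto (fun n => |f n (T (x q))|) atTop (𝓝 0)).eventually_le_const
            (by positivity))))).exists
  choose g g1 g2 g3 using step
  let n : ℕ → ℕ := fun j => Nat.rec (motive := fun _ => ℕ) (g 0 0) (fun j m => g (j + 1) m) j
  have hn : StrictMono n := strictMono_nat_of_lt_succ fun j => g2 (j + 1) (n j)
  have n1 : ∀ j, δ ≤ (-1) ^ j * f (n j) (T (x (n j))) := fun j => by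
    cases j with
    | zero => exact g1 0 0
    | succ j => exact g1 (j + 1) (n j)
  have n2 : ∀ i j, i < j → |f (n i) (T (x (n j)))| ≤ (1 / 2) ^ i * (1 / 2) ^ j ∧
      |f (n j) (T (x (n i)))| ≤ (1 / 2) ^ i * (1 / 2) ^ j := fun i j hij => by
    obtain ⟨j, rfl⟩ := Nat.exists_eq_succ_of_ne_zero (Nat.ne_zero_of_lt hij)
    have a := g3 (j + 1) (n j) (n i)
      (mem_range.2 (Nat.lt_succ_of_le (hn.monotone (Nat.le_of_lt_succ hij))))
    have b : (1 / 4 : ℝ) ^ (j + 1) ≤ (1 / 2) ^ i * (1 / 2) ^ (j + 1) := by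
      rw [show (1 / 4 : ℝ) = 1 / 2 * (1 / 2) by norm_num, mul_pow]
      exact mul_le_mul_of_nonneg_right (pow_le_pow_of_le_one (by norm_num) (by norm_num) hij.le)
        (by positivity)
    exact ⟨a.1.trans b, a.2.trans b⟩
  obtain ⟨B, hB, hM⟩ := exSp (fun b => Set.range fun j => n (2 * j + b)) fun b =>
    Set.infinite_range_of_injective fun i j h => by have := hn.injective h; omega
  let w : ℕ → ℝ := fun p => (1 / 2) ^ Function.invFun n p
  have hw : ∀ i, Function.invFun n (n i) = i := Function.leftInverse_invFun hn.injective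
  have w0 : ∀ p, 0 ≤ w p := fun p => by positivity
  obtain ⟨L, hL⟩ := exists_nat_gt (5 + 8 / δ + 64 * ‖T‖ ^ 3 / δ ^ 3)
  have p1 : 0 ≤ 8 / δ := by positivity
  have p2 : 0 ≤ 64 * ‖T‖ ^ 3 / δ ^ 3 := by positivity
  have L5 : (5 : ℝ) ≤ L := by linarith
  obtain ⟨u1, u2⟩ := h6 B hB L (by exact_mod_cast L5)
  set N := L ^ 2
  have hW : ∑ a ∈ range N, ∑ p ∈ B a, w p ≤ 2 := by
    rw [← sum_biUnion fun a _ b _ h => disjoint_left.2 fun p u v => h (hB.uniq u v),
      ← sum_image (f := fun i => (1 / 2 : ℝ) ^ i) fun p hp q hq e => ?_]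
    · exact (summable_geometric_two.sum_le_tsum _ fun _ _ => by positivity).trans_eq
        tsum_geometric_two
    · obtain ⟨a, -, hp⟩ := mem_biUnion.1 hp
      obtain ⟨b, -, hq⟩ := mem_biUnion.1 hq
      obtain ⟨i, rfl⟩ := hM a hp
      obtain ⟨j, rfl⟩ := hM b hq
      rw [hw, hw] at e
      exact congrArg n e
  set X := ∑ b ∈ range N, ((-1) ^ b * c B b) • ∑ q ∈ B b, x q
  have key : ∀ a ∈ range N, ∀ p ∈ B a, c B a * c B a * δ - w p * 2 ≤ c B a * f p (T X) :=
    fun a ha p hp => by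
    have k : ∑ b ∈ range N, ∑ q ∈ B b, ((if p = q then c B a * c B a * δ else 0) - w p * w q) ≤
        c B a * f p (T X) := by
      simp only [X, map_sum, map_smul, smul_eq_mul, mul_sum]
      refine sum_le_sum fun b _ => sum_le_sum fun q hq => ?_
      split_ifs with e
      · subst e
        obtain rfl := hB.uniq hp hq
        obtain ⟨i, rfl⟩ := hM a hp
        have := n1 (2 * i + a)
        rw [pow_add, pow_mul, neg_one_sq, one_pow, one_mul] at this
        have := mul_le_mul_of_nonneg_left this (mul_self_nonneg (c B a))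
        have := mul_nonneg (w0 (n (2 * i + a))) (w0 (n (2 * i + a)))
        linarith
      · refine neg_le_of_abs_le ?_ |>.trans' (zero_sub _).le
        have : |f p (T (x q))| ≤ w p * w q := by
          obtain ⟨i, rfl⟩ := hM a hp
          obtain ⟨j, rfl⟩ := hM b hq
          simp only [w, hw]
          rcases lt_trichotomy (2 * i + a) (2 * j + b) with h | h | h
          · exact (n2 _ _ h).1
          · exact absurd (congrArg n h) e
          · exact (n2 _ _ h).2.trans_eq (mul_comm _ _)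
        rw [abs_mul, abs_mul, abs_mul, abs_neg_one_pow, one_mul, abs_of_pos (c_pos _ _),
          abs_of_pos (c_pos _ _)]
        exact (mul_le_of_le_one_left (mul_nonneg (c_pos _ _).le (abs_nonneg _)) (c_le _ _)).trans
          ((mul_le_of_le_one_left (abs_nonneg _) (c_le _ _)).trans this)
    simp only [sum_sub_distrib, ← mul_sum] at k
    have k2 := single_le_sum (f := fun b => ∑ q ∈ B b, if p = q then c B a * c B a * δ else 0)
      (fun b _ => sum_nonneg fun q _ => by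
        have := mul_self_nonneg (c B a)
        positivity) ha
    simp only [sum_ite_eq, hp, if_true] at k2 k
    have := mul_le_mul_of_nonneg_left hW (w0 p)
    linarith
  have k := sum_le_sum fun a ha => sum_le_sum (key a ha)
  simp only [sum_sub_distrib, ← mul_sum, ← sum_mul, sum_const, nsmul_eq_mul] at k
  rw [sum_congr rfl (g := fun _ => δ) fun a _ => by linear_combination δ * hB.cc a, sum_const,
    card_range, nsmul_eq_mul] at k
  have v1 := u2 (T X)
  have v2 := pow_le_pow_left₀ (norm_nonneg _)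
    ((T.le_opNorm X).trans (mul_le_mul_of_nonneg_left u1 (norm_nonneg _))) 3
  have v3 : 8 ≤ L * δ := by
    have : 8 / δ ≤ L := by linarith
    rwa [div_le_iff₀ hδ] at this
  have v4 : 64 * ‖T‖ ^ 3 < L * δ ^ 3 := by
    have : 64 * ‖T‖ ^ 3 / δ ^ 3 < L := by linarith
    rwa [div_lt_iff₀ (by positivity)] at this
  have v5 : (L : ℝ) ^ 2 * δ / 2 ≤ |∑ a ∈ range N, c B a * ∑ p ∈ B a, f p (T X)| := by
    refine le_trans ?_ (le_abs_self _)
    simp only [N, Nat.cast_pow] at k ⊢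
    nlinarith
  have v6 := (pow_le_pow_left₀ (by positivity) v5 3).trans
    (v1.trans (mul_le_mul_of_nonneg_left v2 (by positivity)))
  have := mul_lt_mul_of_pos_left v4 (show 0 < (L : ℝ) ^ 5 by positivity)
  nlinarith

theorem main : ∃ (Y : Type) (_ : NormedAddCommGroup Y) (_ : NormedSpace ℝ Y) (_ : CompleteSpace Y)
    (_ : UniformConvexSpace Y) (f : ℕ → ((Y →L[ℝ] Y) →L[ℝ] ℝ)),
      (∀ T : Y →L[ℝ] Y, Tendsto (fun n => f n T) atTop (𝓝 0)) ∧
      ¬ ∀ φ : ((Y →L[ℝ] Y) →L[ℝ] ℝ) →L[ℝ] ℝ, Tendsto (fun n => φ (f n)) atTop (𝓝 0) := by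
  obtain ⟨Y, _, _, _, _, x, f, P, h1, h2, h3, h4, h4', h5, h6⟩ :=
    exMR (default : HilbertBasis ℕ ℝ (lp (fun _ : ℕ => ℝ) 2)).orthonormal
  have b : ∀ (T : Y →L[ℝ] Y) n, |f n (T (x n))| ≤ 2 * ‖T‖ := fun T n => by
    have : ‖x n‖ ≤ 1 := (pow_le_one_iff_of_nonneg (norm_nonneg _) three_ne_zero).1
      (by simpa using h5 {n})
    exact (h3 _ _).trans (mul_le_mul_of_nonneg_left
      ((T.le_opNorm _).trans (mul_le_of_le_one_right (norm_nonneg _) this)) zero_le_two)
  have : ∀ T : Y →L[ℝ] Y, ∃ l, Tendsto (fun n => f n (T (x n))) atTop (𝓝 l) := fun T => by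
    refine tendsto_of_no_upcrossings dense_univ (fun u _ v _ huv h => ?_)
      (isBoundedUnder_of ⟨_, fun n => (abs_le.1 (b T n)).2⟩)
      (isBoundedUnder_of ⟨_, fun n => (abs_le.1 (b T n)).1⟩)
    refine osc (fw h1 h2 h3) (xw h5) h6 (T - ((u + v) / 2) • ContinuousLinearMap.id ℝ Y)
      (δ := (v - u) / 2) (by linarith) fun j => ?_
    rcases neg_one_pow_eq_or ℝ j with e | e
    · refine h.2.mono fun n hn => ?_
      simp [e, h1]
      linarith
    · refine h.1.mono fun n hn => ?_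
      simp [e, h1]
      linarith
  choose l hl using this
  let lam : (Y →L[ℝ] Y) →L[ℝ] ℝ := LinearMap.mkContinuous
    { toFun := l
      map_add' := fun S T => tendsto_nhds_unique (hl _) (by simpa using (hl S).add (hl T))
      map_smul' := fun a T => tendsto_nhds_unique (hl _) (by simpa using (hl T).const_mul a) } 2
    fun T => le_of_tendsto' (hl T).abs (b T)
  refine ⟨Y, _, _, ‹_›, ‹_›, fun n => (f n).comp (ContinuousLinearMap.apply ℝ Y (x n)) - lam,
    fun T => ?_, notw _ P (fun N => (P N).opNorm_le_bound zero_le_one (h4 N)) fun k => ?_⟩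
  · have := (hl T).sub_const (l T)
    rw [sub_self] at this
    exact this
  · filter_upwards [eventually_gt_atTop k] with N hN
    have : l (P N) = 0 := tendsto_nhds_unique (hl _) (tendsto_const_nhds.congr' (by
      filter_upwards [eventually_ge_atTop N] with n hn
      rw [h4', if_neg (not_lt.2 hn), map_zero]))
    show 1 ≤ f k (P N (x k)) - l (P N)
    rw [this, h4', if_pos hN, h1]
    simp

end Pool.Agent.H.MP_f895a2
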